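import Pool.Agent.U208.SI.Upp
import Pool.Agent.U208.SI.Low

/-!
# The exponent of the largest intersecting subfamilies of dense set systems, up to a doubly
logarithmic factor

`f n m c ε` is the largest `k` such that every sequence of `m` subsets of an `n`-set, each of size
`> c n`, has `k` indices for which any two of the sets share more than `ε n` elements.

**Theorem.** Let `0 < c < 1 / 2`. There are `κ, K > 0` and `ε₀ > 0` such that for all `0 < ε ≤ ε₀`, with
`L = log (1 / ε)`, all sufficiently large `m` and all `n ≥ M log m`, where `M` depends on `c` and `ε`,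

`m ^ (1 - K / L) ≤ f n m c ε ≤ m ^ (1 - κ / (L log L))`.

The lower bound is dependent random choice (starting library). The starting result `OrderOfGrowth`
has the upper bound with the exponent `1 - κ' / L²` for `m ≤ n ^ b`.

Idea of the upper bound. We take the points `v` of a grid in the cube `[-1, 1]^D` with spacing about
`η^(1/2) / 4`, where `η` is a small constant times `1 / L`, with `|v|² ≥ r D`, and repeat the point `v` in
proportion to the Gaussian measure of its cell. The set of `v` is the half-space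
`⟨v, x⟩ > s D^(1/2)`, of Gaussian measure `> c`, in a random sample of points `x`. For two points with
`|u + v|² ≤ η D` the intersection of the half-spaces has measure at most
`exp (-2 s² / η) ≤ ε / 2`. The cells of a set of grid points without such pairs have together
Gaussian measure at most `exp (-η D / 32)` times that of the cube, by the inequality of Prekopa and
Leindler.
-/

set_option autoImplicit false

namespace Pool.Agent.Results.MP_cecf76_co.ExponentUpToLogLog

/-- For sets `A 0, …, A (m-1)` of elements of the `n`-element set `Fin n`, a set `I` of indices is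
`ε`-intersecting if `|A i ∩ A j| > ε n` for all distinct `i, j ∈ I`. -/
def Intersecting {n m : ℕ} (ε : ℝ) (A : Fin m → Finset (Fin n)) (I : Finset (Fin m)) : Prop :=
  ∀ i ∈ I, ∀ j ∈ I, i ≠ j → ε * n < ((A i ∩ A j).card : ℝ)

/-- `f n m c ε` is the largest `k` such that every sequence `A 0, …, A (m-1)` of subsets of an
`n`-element set, each with more than `c n` elements, has an `ε`-intersecting set of `k` indices. -/
noncomputable def f (n m : ℕ) (c ε : ℝ) : ℕ :=
  sSup {k : ℕ | ∀ A : Fin m → Finset (Fin n), (∀ i, c * n < ((A i).card : ℝ)) →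
    ∃ I : Finset (Fin m), I.card = k ∧ Intersecting ε A I}

/-- **Theorem.** For `0 < c < 1 / 2` and small `ε` the number `f n m c ε` is between
`m ^ (1 - K / L)` and `m ^ (1 - κ / (L log L))`, `L = log (1 / ε)`, for all large `m` and
`n ≥ M log m`. -/
theorem result (c : ℝ) (hc0 : 0 < c) (hc : c < 1 / 2) :
    ∃ κ K ε₀ : ℝ, 0 < κ ∧ 0 < K ∧ 0 < ε₀ ∧ ε₀ ≤ 1 / 16 ∧ ∀ ε : ℝ, 0 < ε → ε ≤ ε₀ →
      ∃ (M : ℝ) (m₀ : ℕ), 0 < M ∧ ∀ n m : ℕ, m₀ ≤ m → M * Real.log m ≤ n →
        (m : ℝ) ^ (1 - K / Real.log (1 / ε)) ≤ f n m c ε ∧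
          (f n m c ε : ℝ) ≤
            (m : ℝ) ^ (1 - κ / (Real.log (1 / ε) * Real.log (Real.log (1 / ε)))) := by
  obtain ⟨κ, ε₀, hκ, hε₀, hε₀', h⟩ := Pool.Agent.U208.SI.f_upper c hc0 hc
  refine ⟨κ, 4 * Real.log (1 / c), min ε₀ (c ^ 2), hκ, ?_, lt_min hε₀ (by positivity),
    (min_le_left _ _).trans hε₀', fun ε hε hεle => ?_⟩
  · have : 0 < Real.log (1 / c) := Real.log_pos (by rw [one_lt_div hc0]; linarith)
    linarith
  · obtain ⟨M, m₀, hM, h1⟩ := h ε hε (hεle.trans (min_le_left _ _))
    obtain ⟨m₁, h2⟩ := Pool.Agent.U208.SI.f_lower c hc0 hc ε hε (hεle.trans (min_le_right _ _))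
    refine ⟨M, max m₀ (max m₁ 2), hM, fun n m hm hn => ?_⟩
    have hm0 : m₀ ≤ m := (le_max_left _ _).trans hm
    have hm1 : m₁ ≤ m := ((le_max_left _ _).trans (le_max_right _ _)).trans hm
    have hm2 : 2 ≤ m := ((le_max_right _ _).trans (le_max_right _ _)).trans hm
    have hn1 : 1 ≤ n := by
      have e1 : (0 : ℝ) < Real.log m := Real.log_pos (by exact_mod_cast (by omega : 1 < m))
      have : (0 : ℝ) < n := lt_of_lt_of_le (by positivity) hn
      exact_mod_cast this
    exact ⟨h2 n m hn1 hm1, h1 n m hm0 hn⟩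

end Pool.Agent.Results.MP_cecf76_co.ExponentUpToLogLog
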